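import Pool.Agent.PFE.StmtsE2c

/-!
# Row GYE of tank PFE: `F V = F[y]/y^l ⊗ F W`
-/

set_option autoImplicit false

open scoped BigOperators

noncomputable section

namespace Pool.Agent.PFE.H27

open Pool.Agent.PFE

section

variable {F V V1 : Type} [Field F] [CommGroup V] [Fintype V] [CommGroup V1] [Fintype V1]

/-- the linear map `g ↦ ∑ J (g w) * om w` -/
def gyeP (J : MonoidAlgebra F V1 →ₐ[F] MonoidAlgebra F V) (W : Subgroup V) [Fintype W] :
    (W → MonoidAlgebra F V1) →ₗ[F] MonoidAlgebra F V :=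
  ∑ w : W, (LinearMap.mulRight F (MonoidAlgebra.of F V (w : V))) ∘ₗ J.toLinearMap ∘ₗ
    LinearMap.proj w

theorem gyeP_apply (J : MonoidAlgebra F V1 →ₐ[F] MonoidAlgebra F V) (W : Subgroup V) [Fintype W]
    (g : W → MonoidAlgebra F V1) :
    gyeP J W g = ∑ w : W, J (g w) * MonoidAlgebra.of F V (w : V) := by
  unfold gyeP
  rw [LinearMap.sum_apply]
  rfl

theorem gye_bij (i : V1 →* V) (W : Subgroup V) [Fintype W] (hi : Function.Injective i)
    (hbot : i.range ⊓ W = ⊥) (htop : i.range ⊔ W = ⊤) :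
    Function.Bijective (fun p : V1 × W => i p.1 * (p.2 : V)) := by
  constructor
  · rintro ⟨a, w⟩ ⟨b, u⟩ h
    have h1 : i a * (w : V) = i b * (u : V) := h
    have h2 : i (b⁻¹ * a) = (u : V) * (w : V)⁻¹ := by
      rw [map_mul, map_inv, inv_mul_eq_iff_eq_mul, ← mul_assoc, eq_mul_inv_iff_mul_eq]
      exact h1
    have h3 : i (b⁻¹ * a) ∈ i.range ⊓ W := by
      refine ⟨⟨_, rfl⟩, ?_⟩
      rw [h2]
      exact W.mul_mem u.2 (W.inv_mem w.2)
    rw [hbot, Subgroup.mem_bot] at h3
    have h4 : b⁻¹ * a = 1 := hi (by rw [h3, map_one])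
    have h5 : a = b := (inv_mul_eq_one.mp h4).symm
    subst h5
    have h6 : (w : V) = (u : V) := mul_left_cancel h1
    rw [Subtype.ext h6]
  · intro v
    have h : v ∈ i.range ⊔ W := by
      rw [htop]
      exact Subgroup.mem_top v
    rw [Subgroup.mem_sup] at h
    obtain ⟨y, ⟨a, ha⟩, z, hz, hyz⟩ := h
    refine ⟨(a, ⟨z, hz⟩), ?_⟩
    change i a * z = v
    rw [ha, hyz]

end

theorem gye : GyeStmt := by
  intro F V V1 _ _ _ _ _ i W _ l Y hl hi hbot htop
  classical
  let J : MonoidAlgebra F V1 →ₐ[F] MonoidAlgebra F V := il (MonoidAlgebra.of F V) i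
  have hJ : ∀ v, J (MonoidAlgebra.of F V1 v) = MonoidAlgebra.of F V (i v) := by
    intro v
    change (MonoidAlgebra.lift F (MonoidAlgebra F V) V1 ((MonoidAlgebra.of F V).comp i))
      (MonoidAlgebra.of F V1 v) = _
    rw [MonoidAlgebra.lift_of]
    rfl
  have hbij := gye_bij i W hi hbot htop
  have hcard : Fintype.card V1 * Fintype.card W = Fintype.card V := by
    rw [← Fintype.card_prod]
    exact Fintype.card_congr (Equiv.ofBijective _ hbij)
  have hfin : Module.finrank F (W → MonoidAlgebra F V1) = Module.finrank F (MonoidAlgebra F V) := by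
    rw [Module.finrank_eq_card_basis (MonoidAlgebra.basis V F),
      Module.finrank_pi_fintype]
    simp only [Module.finrank_eq_card_basis (MonoidAlgebra.basis V1 F)]
    rw [Finset.sum_const, Finset.card_univ, smul_eq_mul, mul_comm, hcard]
  have hsurj : Function.Surjective (gyeP J W) := by
    rw [← LinearMap.range_eq_top, ← top_le_iff, ← (MonoidAlgebra.basis V F).span_eq,
      Submodule.span_le]
    rintro _ ⟨v, rfl⟩
    obtain ⟨⟨a, w⟩, h⟩ := hbij.2 v
    refine ⟨Pi.single w (MonoidAlgebra.of F V1 a), ?_⟩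
    rw [gyeP_apply, Finset.sum_eq_single w]
    · rw [Pi.single_eq_same, hJ, ← map_mul]
      have h1 : i a * (w : V) = v := h
      rw [h1]
      rw [MonoidAlgebra.basis_apply]
      rfl
    · intro u _ hu
      rw [Pi.single_eq_of_ne hu, map_zero, zero_mul]
    · intro h
      exact absurd (Finset.mem_univ w) h
  have : Module.Finite F (MonoidAlgebra F V) := Module.Finite.of_basis (MonoidAlgebra.basis V F)
  have : Module.Finite F (MonoidAlgebra F V1) := Module.Finite.of_basis (MonoidAlgebra.basis V1 F)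
  have hinj : Function.Injective (gyeP J W) :=
    (LinearMap.injective_iff_surjective_of_finrank_eq_finrank hfin).mpr hsurj
  let e : (W → MonoidAlgebra F V1) ≃ₗ[F] MonoidAlgebra F V :=
    LinearEquiv.ofBijective (gyeP J W) ⟨hinj, hsurj⟩
  have he : ∀ g, e g = ∑ w : W, J (g w) * MonoidAlgebra.of F V (w : V) := fun g => gyeP_apply J W g
  have key : ∀ a : ℕ → W → F,
      e (fun w => ∑ k ∈ Finset.range l, a k w • Y.y ^ k) =
        ∑ k ∈ Finset.range l, ∑ w : W, a k w • (J Y.y ^ k * MonoidAlgebra.of F V (w : V)) := by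
    intro a
    rw [he, Finset.sum_comm]
    refine Finset.sum_congr rfl fun w _ => ?_
    rw [map_sum, Finset.sum_mul]
    refine Finset.sum_congr rfl fun k _ => ?_
    rw [map_smul, map_pow, smul_mul_assoc]
  refine ⟨{ om := (MonoidAlgebra.of F V).comp W.subtype
            y := J Y.y
            yl := ?_
            co := fun k w => Y.co k ∘ₗ LinearMap.proj w ∘ₗ e.symm.toLinearMap
            ex := ?_
            un := ?_ }, rfl, fun w => rfl⟩
  · rw [← map_pow, Y.yl, map_zero]
  · intro γ
    have h1 := key (fun k w => Y.co k (e.symm γ w))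
    have h2 : (fun w : W => ∑ k ∈ Finset.range l, Y.co k (e.symm γ w) • Y.y ^ k) = e.symm γ := by
      funext w
      exact Y.ex _
    rw [h2, e.apply_symm_apply] at h1
    exact h1.symm
  · intro a k w hk
    have h1 := key a
    have h2 : e.symm (∑ k ∈ Finset.range l, ∑ w : W,
        a k w • (J Y.y ^ k * MonoidAlgebra.of F V (w : V))) =
        fun w => ∑ k ∈ Finset.range l, a k w • Y.y ^ k := by
      rw [← h1, e.symm_apply_apply]
    change Y.co k (e.symm (∑ k ∈ Finset.range l, ∑ w : W,
        a k w • (J Y.y ^ k * MonoidAlgebra.of F V (w : V))) w) = a k w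
    rw [h2]
    exact Y.un (fun k => a k w) k hk

end Pool.Agent.PFE.H27
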