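import Pool.Agent.PFE.StmtsE1

set_option autoImplicit false

open scoped BigOperators

noncomputable section

namespace Pool.Agent.PFE.H27

open Pool.Agent.PFE

section

variable {K S C X : Type} [Field K] [Ring S] [Algebra K S] [Ring C] [Algebra K C] [Group X]
  [Fintype X] {G : GS K S X} {l : ℕ} {χ : X →* K}

theorem sgc (G : GS K S X) (χ : X →* K) (x : X) (s : S) :
    G.sg χ (G.c x s) = χ x • G.c x s := by
  unfold GS.sg
  rw [LinearMap.sum_apply]
  simp only [LinearMap.smul_apply]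
  rw [Finset.sum_eq_single x]
  · rw [G.ci]
  · intro x' _ hx'
    rw [G.co x' x s hx', smul_zero]
  · intro h
    exact absurd (Finset.mem_univ x) h

theorem sgck (G : GS K S X) (χ : X →* K) (x : X) (s : S) (k : ℕ) :
    (G.sg χ ^ k) (G.c x s) = χ x ^ k • G.c x s := by
  induction k with
  | zero => rw [pow_zero, pow_zero, one_smul, Module.End.one_apply]
  | succ k ih => rw [pow_succ, Module.End.mul_apply, sgc, map_smul, ih, smul_smul, pow_succ,
      mul_comm]

theorem sgk_id (G : GS K S X) (χ : X →* K) (k : ℕ) (h : ∀ x, χ x ^ k = 1) (s : S) :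
    (G.sg χ ^ k) s = s := by
  conv_lhs => rw [← G.cs s]
  rw [map_sum]
  conv_rhs => rw [← G.cs s]
  apply Finset.sum_congr rfl
  intro x _
  rw [sgck, h, one_smul]

theorem sg_fix (G : GS K S X) (χ : X →* K) (hu : ∀ x, x ≠ 1 → IsUnit (1 - χ x)) (s : S) :
    G.sg χ s = s ↔ G.c 1 s = s := by
  constructor
  · intro h
    have h0 : ∀ x, x ≠ 1 → G.c x s = 0 := by
      intro x hx
      have h1 : G.c x (G.sg χ s) = χ x • G.c x s := by
        unfold GS.sg
        rw [LinearMap.sum_apply, map_sum]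
        simp only [LinearMap.smul_apply, map_smul]
        rw [Finset.sum_eq_single x]
        · rw [G.ci]
        · intro x' _ hx'
          rw [G.co x x' s hx'.symm, smul_zero]
        · intro h
          exact absurd (Finset.mem_univ x) h
      rw [h] at h1
      have h2 : (1 - χ x) • G.c x s = 0 := by
        rw [sub_smul, one_smul, ← h1, sub_self]
      rcases smul_eq_zero.mp h2 with h3 | h3
      · exact absurd h3 (hu x hx).ne_zero
      · exact h3
    conv_rhs => rw [← G.cs s]
    rw [Finset.sum_eq_single 1]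
    · intro x _ hx
      exact h0 x hx
    · intro h
      exact absurd (Finset.mem_univ _) h
  · intro h
    rw [← h, sgc, map_one, one_smul]

theorem pw (Q : CC K S C X G l χ) (k : ℕ) (t : S) :
    Q.y ^ k * Q.i t = Q.i ((G.sg χ ^ k) t) * Q.y ^ k := by
  induction k generalizing t with
  | zero => rw [pow_zero, pow_zero, one_mul, mul_one, Module.End.one_apply]
  | succ k ih => rw [pow_succ, mul_assoc, Q.ys, ← mul_assoc, ih, mul_assoc, pow_succ,
      Module.End.mul_apply]

/-- the element with the given coefficients -/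
def el (Q : CC K S C X G l χ) (s : ℕ → S) : C := ∑ k ∈ Finset.range l, Q.i (s k) * Q.y ^ k

theorem co_el (Q : CC K S C X G l χ) (s : ℕ → S) (k : ℕ) (hk : k < l) : Q.co k (el Q s) = s k :=
  Q.un s k hk

theorem el_ext (Q : CC K S C X G l χ) (s t : ℕ → S) (h : ∀ k, k < l → s k = t k) :
    el Q s = el Q t := by
  unfold el
  apply Finset.sum_congr rfl
  intro k hk
  rw [h k (Finset.mem_range.mp hk)]

theorem i_mul (Q : CC K S C X G l χ) (t : S) (s : ℕ → S) :
    Q.i t * el Q s = el Q (fun k => t * s k) := by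
  unfold el
  rw [Finset.mul_sum]
  apply Finset.sum_congr rfl
  intro k _
  rw [← mul_assoc, ← map_mul]

theorem mul_i (Q : CC K S C X G l χ) (t : S) (s : ℕ → S) :
    el Q s * Q.i t = el Q (fun k => s k * (G.sg χ ^ k) t) := by
  unfold el
  rw [Finset.sum_mul]
  apply Finset.sum_congr rfl
  intro k _
  rw [mul_assoc, pw, ← mul_assoc, ← map_mul]

/-- shift of the coefficients -/
def sh (s : ℕ → S) : ℕ → S := fun k => Nat.casesOn k 0 s

theorem shift (Q : CC K S C X G l χ) (hl : 1 ≤ l) (s : ℕ → S) :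
    ∑ k ∈ Finset.range l, Q.i (s k) * Q.y ^ (k + 1) = el Q (sh s) := by
  unfold el
  have hyl := Q.yl
  obtain ⟨m, rfl⟩ : ∃ m, l = m + 1 := ⟨l - 1, by omega⟩
  rw [Finset.sum_range_succ, Finset.sum_range_succ' (fun k => Q.i (sh s k) * Q.y ^ k)]
  rw [hyl, mul_zero, add_zero]
  have h0 : Q.i (sh s 0) = 0 := by
    show Q.i (0 : S) = 0
    exact map_zero _
  rw [h0, zero_mul, add_zero]
  rfl

theorem y_mul (Q : CC K S C X G l χ) (hl : 1 ≤ l) (s : ℕ → S) :
    Q.y * el Q s = el Q (sh (fun k => G.sg χ (s k))) := by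
  rw [← shift Q hl]
  unfold el
  rw [Finset.mul_sum]
  apply Finset.sum_congr rfl
  intro k _
  rw [← mul_assoc, Q.ys, mul_assoc, ← pow_succ']

theorem mul_y (Q : CC K S C X G l χ) (hl : 1 ≤ l) (s : ℕ → S) :
    el Q s * Q.y = el Q (sh s) := by
  rw [← shift Q hl]
  unfold el
  rw [Finset.sum_mul]
  apply Finset.sum_congr rfl
  intro k _
  rw [mul_assoc, ← pow_succ]

theorem mem_cen (Q : CC K S C X G l χ) (hl : 1 ≤ l) (s : ℕ → S) :
    el Q s ∈ Subalgebra.center K C ↔
      (∀ k, k < l → ∀ t, t * s k = s k * (G.sg χ ^ k) t) ∧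
      ∀ k, k + 1 < l → G.sg χ (s k) = s k := by
  rw [Subalgebra.mem_center_iff]
  constructor
  · intro h
    refine ⟨?_, ?_⟩
    · intro k hk t
      have h1 := h (Q.i t)
      rw [i_mul, mul_i] at h1
      have h2 := congrArg (Q.co k) h1
      rw [co_el Q _ k hk, co_el Q _ k hk] at h2
      exact h2
    · intro k hk
      have h1 := h Q.y
      rw [y_mul Q hl, mul_y Q hl] at h1
      have h2 := congrArg (Q.co (k + 1)) h1
      rw [co_el Q _ _ hk, co_el Q _ _ hk] at h2
      exact h2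
  · rintro ⟨h1, h2⟩ b
    have hi : ∀ t, Commute (Q.i t) (el Q s) := by
      intro t
      show Q.i t * el Q s = el Q s * Q.i t
      rw [i_mul, mul_i]
      apply el_ext
      intro k hk
      exact h1 k hk t
    have hy : Commute Q.y (el Q s) := by
      show Q.y * el Q s = el Q s * Q.y
      rw [y_mul Q hl, mul_y Q hl]
      apply el_ext
      intro k hk
      cases k with
      | zero => rfl
      | succ k => exact h2 k hk
    have hb : Commute b (el Q s) := by
      rw [← Q.ex b]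
      apply Commute.sum_left
      intro k _
      exact (hi _).mul_left (hy.pow_left k)
    exact hb

/-- the spaces of the statement -/
def Zk (G : GS K S X) (χ : X →* K) (k : ℕ) : Submodule K S where
  carrier := {s | G.c 1 s = s ∧ ∀ x t, G.c x t * s = χ x ^ k • (s * G.c x t)}
  zero_mem' := by
    refine ⟨map_zero _, ?_⟩
    intro x t
    rw [mul_zero, zero_mul, smul_zero]
  add_mem' := by
    rintro a b ⟨ha, ha'⟩ ⟨hb, hb'⟩
    refine ⟨?_, ?_⟩
    · rw [map_add, ha, hb]
    · intro x t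
      rw [mul_add, add_mul, smul_add, ha', hb']
  smul_mem' := by
    rintro r a ⟨ha, ha'⟩
    refine ⟨?_, ?_⟩
    · rw [map_smul, ha]
    · intro x t
      rw [mul_smul_comm, smul_mul_assoc, ha', smul_comm]

theorem mem_Zk (G : GS K S X) (χ : X →* K) (k : ℕ) (s : S) :
    s ∈ Zk G χ k ↔ G.c 1 s = s ∧ ∀ x t, G.c x t * s = χ x ^ k • (s * G.c x t) := Iff.rfl

theorem mem_Zk' (G : GS K S X) (χ : X →* K) (k : ℕ) (s : S) :
    (∀ x t, G.c x t * s = χ x ^ k • (s * G.c x t)) ↔ ∀ t, t * s = s * (G.sg χ ^ k) t := by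
  constructor
  · intro h t
    conv_lhs => rw [← G.cs t]
    conv_rhs => rw [← G.cs t]
    rw [Finset.sum_mul, map_sum, Finset.mul_sum]
    apply Finset.sum_congr rfl
    intro x _
    rw [sgck, h x t, mul_smul_comm]
  · intro h x t
    rw [h, sgck, mul_smul_comm]

/-- the coefficient of degree `k` -/
def sq (G : GS K S X) (χ : X →* K) (l k : ℕ) :
    (↥(Subalgebra.toSubmodule (Subalgebra.center K S)) × (∀ j : Fin (l - 1), ↥(Zk G χ j))) →ₗ[K]
      S :=
  if h : k < l - 1 then (Zk G χ k).subtype ∘ₗ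
    (LinearMap.proj (R := K) (φ := fun j : Fin (l - 1) => ↥(Zk G χ j)) (⟨k, h⟩ : Fin (l - 1)) :
      (∀ j : Fin (l - 1), ↥(Zk G χ j)) →ₗ[K] ↥(Zk G χ k)) ∘ₗ LinearMap.snd K _ _
  else (Subalgebra.toSubmodule (Subalgebra.center K S)).subtype ∘ₗ LinearMap.fst K _ _

theorem sq_lt (G : GS K S X) (χ : X →* K) (l k : ℕ) (h : k < l - 1)
    (p : ↥(Subalgebra.toSubmodule (Subalgebra.center K S)) × (∀ j : Fin (l - 1), ↥(Zk G χ j))) :
    sq G χ l k p = ((p.2 ⟨k, h⟩ : ↥(Zk G χ k)) : S) := by
  unfold sq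
  rw [dif_pos h]
  rfl

theorem sq_ge (G : GS K S X) (χ : X →* K) (l k : ℕ) (h : ¬ k < l - 1)
    (p : ↥(Subalgebra.toSubmodule (Subalgebra.center K S)) × (∀ j : Fin (l - 1), ↥(Zk G χ j))) :
    sq G χ l k p = (p.1 : S) := by
  unfold sq
  rw [dif_neg h]
  rfl

/-- the parametrisation of the centre -/
def ph (Q : CC K S C X G l χ) :
    (↥(Subalgebra.toSubmodule (Subalgebra.center K S)) × (∀ j : Fin (l - 1), ↥(Zk G χ j))) →ₗ[K]
      C :=
  ∑ k ∈ Finset.range l, (LinearMap.mulRight K (Q.y ^ k)) ∘ₗ Q.i.toLinearMap ∘ₗ sq G χ l k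

theorem ph_apply (Q : CC K S C X G l χ)
    (p : ↥(Subalgebra.toSubmodule (Subalgebra.center K S)) × (∀ j : Fin (l - 1), ↥(Zk G χ j))) :
    ph Q p = el Q (fun k => sq G χ l k p) := by
  unfold ph el
  rw [LinearMap.sum_apply]
  rfl

theorem ph_inj (Q : CC K S C X G l χ) (hl : 2 ≤ l) : Function.Injective (ph Q) := by
  intro p p' h
  rw [ph_apply, ph_apply] at h
  have h1 : ∀ k, k < l → sq G χ l k p = sq G χ l k p' := by
    intro k hk
    have h2 := congrArg (Q.co k) h
    rw [co_el Q _ k hk, co_el Q _ k hk] at h2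
    exact h2
  apply Prod.ext
  · apply Subtype.ext
    have h2 := h1 (l - 1) (by omega)
    rw [sq_ge G χ l (l - 1) (lt_irrefl _), sq_ge G χ l (l - 1) (lt_irrefl _)] at h2
    exact h2
  · funext j
    apply Subtype.ext
    have h2 := h1 j (by have := j.2; omega)
    rw [sq_lt G χ l j j.2, sq_lt G χ l j j.2] at h2
    exact h2

theorem ph_range (Q : CC K S C X G l χ) (hl : 2 ≤ l) (hχ : ∀ x, χ x ^ (l - 1) = 1)
    (hu : ∀ x, x ≠ 1 → IsUnit (1 - χ x)) :
    LinearMap.range (ph Q) = Subalgebra.toSubmodule (Subalgebra.center K C) := by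
  ext c
  rw [LinearMap.mem_range, Subalgebra.mem_toSubmodule]
  constructor
  · rintro ⟨p, rfl⟩
    rw [ph_apply, mem_cen Q (by omega)]
    refine ⟨?_, ?_⟩
    · intro k hk t
      by_cases h : k < l - 1
      · show t * sq G χ l k p = sq G χ l k p * (G.sg χ ^ k) t
        rw [sq_lt G χ l k h]
        exact (mem_Zk' G χ k _).mp ((mem_Zk G χ k _).mp (p.2 ⟨k, h⟩).2).2 t
      · show t * sq G χ l k p = sq G χ l k p * (G.sg χ ^ k) t
        rw [sq_ge G χ l k h]
        have hk' : k = l - 1 := by omega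
        rw [hk', sgk_id G χ (l - 1) hχ]
        have h5 : (p.1 : S) ∈ Subalgebra.center K S := p.1.2
        exact (Subalgebra.mem_center_iff.mp h5) t
    · intro k hk
      have h : k < l - 1 := by omega
      show G.sg χ (sq G χ l k p) = sq G χ l k p
      rw [sq_lt G χ l k h]
      exact (sg_fix G χ hu _).mpr ((mem_Zk G χ k _).mp (p.2 ⟨k, h⟩).2).1
  · intro hc
    have he : el Q (fun k => Q.co k c) = c := Q.ex c
    rw [← he, mem_cen Q (by omega)] at hc
    obtain ⟨h1, h2⟩ := hc
    have hz : Q.co (l - 1) c ∈ Subalgebra.toSubmodule (Subalgebra.center K S) := by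
      rw [Subalgebra.mem_toSubmodule, Subalgebra.mem_center_iff]
      intro t
      have h3 := h1 (l - 1) (by omega) t
      rw [sgk_id G χ (l - 1) hχ] at h3
      exact h3
    have hf : ∀ j : Fin (l - 1), Q.co j c ∈ Zk G χ j := by
      intro j
      have hj := j.2
      rw [mem_Zk, mem_Zk']
      exact ⟨(sg_fix G χ hu _).mp (h2 j (by omega)), h1 j (by omega)⟩
    refine ⟨(⟨Q.co (l - 1) c, hz⟩, fun j => ⟨Q.co j c, hf j⟩), ?_⟩
    rw [ph_apply]
    conv_rhs => rw [← he]
    apply el_ext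
    intro k hk
    by_cases h : k < l - 1
    · rw [sq_lt G χ l k h]
    · rw [sq_ge G χ l k h]
      have hk' : k = l - 1 := by omega
      rw [hk']

end

theorem zcb : ZcbStmt := by
  intro K S C X _ _ _ _ _ _ _ _ G l χ Q hl hχ hu
  refine ⟨Zk G χ, fun k s => mem_Zk G χ k s, ?_⟩
  have h1 : Module.finrank K (Subalgebra.center K C) =
      Module.finrank K ↥(LinearMap.range (ph Q)) := by
    rw [ph_range Q hl hχ hu]
    rfl
  rw [h1, LinearMap.finrank_range_of_inj (ph_inj Q hl), Module.finrank_prod,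
    Module.finrank_pi_fintype]
  rw [Finset.sum_range (fun k => Module.finrank K ↥(Zk G χ k))]
  rfl

end Pool.Agent.PFE.H27
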